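import Mathlib
import Pool.Agent.Results.MP_7a9645_co.FullQ1

/-!
# MP_25b479_co : signed zero-3-sum-free sets in cyclic groups

For every positive integer `n`, the largest size `τ_±(ℤ_n,3)` of a subset of `ℤ_n` with no solution
of `a + b + c = 0` or `a + b = c` is `v(n)`.
-/

namespace Pool.Agent.Results.MP_25b479_co.SignedZeroThree

open Pool.Agent.Results.MP_7a9645_co.FullQ1

/-- `A ⊆ ℤ_n` is zero-3-sum-free over `ℤ`: no `a, b, c ∈ A` (not necessarily distinct) satisfy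
`a + b + c = 0` or `a + b = c`. -/
def ZeroThreeSumFree {n : ℕ} (A : Finset (ZMod n)) : Prop :=
  ∀ a ∈ A, ∀ b ∈ A, ∀ c ∈ A, a + b + c ≠ 0 ∧ a + b ≠ c

/-- `τ_±(ℤ_n,3)`: the largest size of a zero-3-sum-free set over `ℤ` in `ℤ_n`. -/
noncomputable def tauPM (n : ℕ) : ℕ :=
  sSup {k : ℕ | ∃ A : Finset (ZMod n), ZeroThreeSumFree A ∧ A.card = k}

open Classical in
/-- `v(n)`: `(1 + 1/p) n/3` if `n` has a prime divisor `≡ 2 (mod 3)` and `p` is the smallest such
divisor, and `⌊(n-1)/3⌋` otherwise. -/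
noncomputable def vPM (n : ℕ) : ℚ :=
  if H : ∃ p : ℕ, p.Prime ∧ p ∣ n ∧ p % 3 = 2 then (1 + 1 / (Nat.find H : ℚ)) * (n / 3)
  else (⌊((n : ℚ) - 1) / 3⌋ : ℚ)

/-- A natural number congruent to `2` mod `3` has a prime factor congruent to `2` mod `3`. -/
theorem exists_prime_mod (d : ℕ) (hd : d % 3 = 2) : ∃ p : ℕ, p.Prime ∧ p ∣ d ∧ p % 3 = 2 := by
  induction d using Nat.strong_induction_on with
  | _ d ih =>
    have hd1 : d ≠ 1 := by rintro rfl; simp at hd
    have hd0 : 0 < d := by omega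
    have hp := Nat.minFac_prime hd1
    by_cases h2 : d.minFac % 3 = 2
    · exact ⟨_, hp, Nat.minFac_dvd d, h2⟩
    · obtain ⟨e, he⟩ := Nat.minFac_dvd d
      have h0 : d.minFac % 3 ≠ 0 := by
        intro h0
        have : d % 3 = 0 := by rw [he, Nat.mul_mod, h0]; simp
        omega
      have h1 : d.minFac % 3 = 1 := by omega
      have h3 : e % 3 = 2 := by
        have : d % 3 = (d.minFac % 3) * (e % 3) % 3 := by
          conv_lhs => rw [he]
          rw [Nat.mul_mod]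
        rw [h1, hd, one_mul, Nat.mod_mod] at this
        omega
      have he1 : e < d := by
        have := hp.two_le
        have he0 : 0 < e := by
          rcases Nat.eq_zero_or_pos e with h | h
          · rw [h] at h3; simp at h3
          · exact h
        nlinarith
      obtain ⟨p, hp1, hp2, hp3⟩ := ih e he1 h3
      exact ⟨p, hp1, hp2.trans ⟨d.minFac, by rw [mul_comm]; exact he⟩, hp3⟩

/-- Values of the general bound at `h = 3`. -/
theorem value_le {n d : ℕ} (hn : 0 < n) (hd0 : 0 < d) (hdn : d ∣ n) :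
    (((⌊((d : ℚ) - 1 - (Nat.gcd d 3 : ℚ)) / ((3 : ℕ) : ℚ)⌋ + 1) * ((n / d : ℕ) : ℤ) : ℤ) : ℚ)
      ≤ vPM n := by
  classical
  obtain ⟨e, he⟩ := hdn
  have hnd : n / d = e := by rw [he]; exact Nat.mul_div_cancel_left e hd0
  have he0 : 0 < e := by
    rcases Nat.eq_zero_or_pos e with h | h
    · rw [h] at he; simp at he; omega
    · exact h
  rw [floor_eq, hnd]
  -- the value `w` of the first factor
  have key : ((((d : ℤ) - 1 - (Nat.gcd d 3 : ℕ)) / ((3 : ℕ) : ℤ) + 1) * 3 ≤ (d : ℤ) - 1) ∨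
      (d % 3 = 2 ∧ (((d : ℤ) - 1 - (Nat.gcd d 3 : ℕ)) / ((3 : ℕ) : ℤ) + 1) * 3 = (d : ℤ) + 1) := by
    have hmod : d % 3 = 0 ∨ d % 3 = 1 ∨ d % 3 = 2 := by omega
    rcases hmod with h | h | h
    · left
      have hg : Nat.gcd d 3 = 3 := Nat.gcd_eq_right (Nat.dvd_of_mod_eq_zero h)
      rw [hg]
      push_cast
      omega
    · left
      have hg : Nat.gcd d 3 = 1 := by
        rw [Nat.gcd_comm, Nat.gcd_rec, h]; simp
      rw [hg]
      push_cast
      omega
    · right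
      refine ⟨h, ?_⟩
      have hg : Nat.gcd d 3 = 1 := by
        rw [Nat.gcd_comm, Nat.gcd_rec, h]; simp
      rw [hg]
      push_cast
      omega
  set w : ℤ := ((d : ℤ) - 1 - (Nat.gcd d 3 : ℕ)) / ((3 : ℕ) : ℤ) + 1 with hw
  have heQ : (0 : ℚ) < e := by exact_mod_cast he0
  have hdQ : (0 : ℚ) < d := by exact_mod_cast hd0
  have he1Q : (1 : ℚ) ≤ e := by exact_mod_cast he0
  have hnQ : (n : ℚ) = d * e := by rw [he]; push_cast; ring
  unfold vPM
  split_ifs with H
  · obtain ⟨hp, hpn, hp3⟩ := Nat.find_spec H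
    set p := Nat.find H with hpdef
    have hpQ : (0 : ℚ) < p := by exact_mod_cast hp.pos
    rcases key with hk | ⟨h2, hk⟩
    · have hkQ : (w : ℚ) * 3 ≤ (d : ℚ) - 1 := by exact_mod_cast hk
      push_cast
      have h1 : (w : ℚ) * e * 3 ≤ n := by
        rw [hnQ]; nlinarith
      have h2 : (0 : ℚ) ≤ 1 / p * (n / 3) := by positivity
      have h3 : (1 + 1 / (p : ℚ)) * (n / 3) = n / 3 + 1 / p * (n / 3) := by ring
      rw [h3]
      linarith
    · have hkQ : (w : ℚ) * 3 = (d : ℚ) + 1 := by exact_mod_cast hk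
      obtain ⟨q, hq, hqd, hq3⟩ := exists_prime_mod d h2
      have hpq : p ≤ q := Nat.find_min' H ⟨hq, hqd.trans ⟨e, he⟩, hq3⟩
      have hqd' : q ≤ d := Nat.le_of_dvd hd0 hqd
      have hpd : (p : ℚ) ≤ d := by exact_mod_cast hpq.trans hqd'
      push_cast
      have h1 : (w : ℚ) * e = (d + 1) * e / 3 := by rw [← hkQ]; ring
      rw [h1, hnQ]
      have h2 : (1 + 1 / (p : ℚ)) * (d * e / 3) = (d * e + d / p * e) / 3 := by
        field_simp
      rw [h2]
      have h3 : (1 : ℚ) ≤ d / p := by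
        rw [le_div_iff₀ hpQ]; linarith
      nlinarith
  · rcases key with hk | ⟨h2, hk⟩
    · have hkQ : (w : ℚ) * 3 ≤ (d : ℚ) - 1 := by exact_mod_cast hk
      have : (w * (e : ℤ)) ≤ ⌊((n : ℚ) - 1) / 3⌋ := by
        rw [Int.le_floor]
        push_cast
        rw [hnQ]
        nlinarith
      exact_mod_cast this
    · exfalso
      obtain ⟨q, hq, hqd, hq3⟩ := exists_prime_mod d h2
      exact H ⟨q, hq, hqd.trans ⟨e, he⟩, hq3⟩

/-- Upper bound. -/
theorem card_le {n : ℕ} (hn : 0 < n) (A : Finset (ZMod n)) (hA : ZeroThreeSumFree A) :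
    (A.card : ℚ) ≤ vPM n := by
  have hmem : A.card ∈ sizes n 3 := by
    refine ⟨A, ?_, rfl⟩
    rintro ⟨a, ha, hs⟩
    rw [Fin.sum_univ_three] at hs
    exact (hA _ (ha 0) _ (ha 1) _ (ha 2)).1 hs
  obtain ⟨x, ⟨d, hd0, hdn, hx⟩, hle⟩ := upper (by norm_num : 0 < 3) hn hmem
  have h1 := value_le hn hd0 hdn
  rw [← hx] at h1
  exact le_trans (by exact_mod_cast hle) h1

/-- Construction: preimages of intervals modulo `m`. -/
theorem construct {n m lo l : ℕ} (hn : 0 < n) (hm0 : 0 < m) (hmn : m ∣ n) (hl : 1 ≤ l)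
    (h1 : m < 3 * lo) (h2 : 3 * (lo + l - 1) < 2 * m) (h3 : lo + l - 1 < 2 * lo)
    (h4 : 2 * (lo + l - 1) < m + lo) :
    ∃ A : Finset (ZMod n), ZeroThreeSumFree A ∧ A.card = l * (n / m) := by
  classical
  have : NeZero n := ⟨hn.ne'⟩
  have hna : (m : ℤ) * ((n / m : ℕ) : ℤ) = n := by exact_mod_cast Nat.mul_div_cancel' hmn
  have hmn' : (m : ℤ) ∣ (n : ℤ) := by exact_mod_cast hmn
  set F : ℕ × ℕ → ZMod n := fun z => (((lo : ℤ) + z.1 + m * z.2 : ℤ) : ZMod n) with hF
  have nodvd : ∀ y : ℤ, 0 < y → y < m → ¬ (m : ℤ) ∣ y := by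
    intro y hy hym hdvd
    exact absurd (Int.le_of_dvd hy hdvd) (by linarith)
  refine ⟨(Finset.range l ×ˢ Finset.range (n / m)).image F, ?_, ?_⟩
  · intro a ha b hb c hc
    rw [Finset.mem_image] at ha hb hc
    obtain ⟨u, hu, rfl⟩ := ha
    obtain ⟨v, hv, rfl⟩ := hb
    obtain ⟨w, hw, rfl⟩ := hc
    rw [Finset.mem_product, Finset.mem_range, Finset.mem_range] at hu hv hw
    constructor
    · intro hs
      have hs' : ((((lo : ℤ) + u.1 + m * u.2) + ((lo : ℤ) + v.1 + m * v.2)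
          + ((lo : ℤ) + w.1 + m * w.2) : ℤ) : ZMod n) = 0 := by
        push_cast
        push_cast [hF] at hs
        exact hs
      rw [ZMod.intCast_zmod_eq_zero_iff_dvd] at hs'
      have hd := hmn'.trans hs'
      have hd2 : (m : ℤ) ∣ (3 * lo + u.1 + v.1 + w.1 - m) := by
        have e : (3 * (lo : ℤ) + u.1 + v.1 + w.1 - m)
            = (((lo : ℤ) + u.1 + m * u.2) + ((lo : ℤ) + v.1 + m * v.2)
              + ((lo : ℤ) + w.1 + m * w.2)) - m * (1 + u.2 + v.2 + w.2) := by ring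
        rw [e]
        exact dvd_sub hd (dvd_mul_right _ _)
      have b1 : (0 : ℤ) < 3 * lo + u.1 + v.1 + w.1 - m := by omega
      have b2 : (3 * lo + u.1 + v.1 + w.1 - m : ℤ) < m := by omega
      exact nodvd _ b1 b2 hd2
    · intro hs
      have hs' : ((((lo : ℤ) + u.1 + m * u.2) + ((lo : ℤ) + v.1 + m * v.2)
          - ((lo : ℤ) + w.1 + m * w.2) : ℤ) : ZMod n) = 0 := by
        push_cast
        push_cast [hF] at hs
        rw [hs]; ring
      rw [ZMod.intCast_zmod_eq_zero_iff_dvd] at hs'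
      have hd := hmn'.trans hs'
      have hd2 : (m : ℤ) ∣ ((lo : ℤ) + u.1 + v.1 - w.1) := by
        have e : ((lo : ℤ) + u.1 + v.1 - w.1)
            = (((lo : ℤ) + u.1 + m * u.2) + ((lo : ℤ) + v.1 + m * v.2)
              - ((lo : ℤ) + w.1 + m * w.2)) - m * ((u.2 : ℤ) + v.2 - w.2) := by ring
        rw [e]
        exact dvd_sub hd (dvd_mul_right _ _)
      have b1 : (0 : ℤ) < (lo : ℤ) + u.1 + v.1 - w.1 := by omega
      have b2 : ((lo : ℤ) + u.1 + v.1 - w.1 : ℤ) < m := by omega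
      exact nodvd _ b1 b2 hd2
  · rw [Finset.card_image_of_injOn, Finset.card_product, Finset.card_range, Finset.card_range]
    intro x hx y hy hxy
    rw [Finset.mem_coe, Finset.mem_product, Finset.mem_range, Finset.mem_range] at hx hy
    have h1 : (((lo : ℤ) + x.1 + m * x.2 : ℤ) : ZMod n) = (((lo : ℤ) + y.1 + m * y.2 : ℤ) : ZMod n) :=
      hxy
    rw [ZMod.intCast_eq_intCast_iff_dvd_sub] at h1
    have h2 : ((lo : ℤ) + y.1 + m * y.2 : ℤ) - ((lo : ℤ) + x.1 + m * x.2 : ℤ)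
        = ((y.1 : ℤ) - x.1) + m * ((y.2 : ℤ) - x.2) := by ring
    rw [h2, ← hna] at h1
    have hdZ : (0 : ℤ) < m := by exact_mod_cast hm0
    have h3 : (m : ℤ) ∣ (y.1 : ℤ) - x.1 := by
      have h4 := (dvd_mul_right (m : ℤ) _).trans h1
      exact (dvd_add_left (dvd_mul_right (m : ℤ) _)).mp h4
    have h5 : (y.1 : ℤ) - x.1 = 0 := by
      apply Int.eq_zero_of_abs_lt_dvd h3
      rw [abs_lt]
      have := hx.1; have := hy.1
      constructor <;> omega
    rw [h5, zero_add] at h1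
    have h6 : ((n / m : ℕ) : ℤ) ∣ (y.2 : ℤ) - x.2 := (mul_dvd_mul_iff_left hdZ.ne').mp h1
    have h7 : (y.2 : ℤ) - x.2 = 0 := by
      apply Int.eq_zero_of_abs_lt_dvd h6
      rw [abs_lt]
      have := hx.2; have := hy.2
      constructor <;> omega
    exact Prod.ext (by omega) (by omega)

/-- Lower bound. -/
theorem exists_set {n : ℕ} (hn : 0 < n) :
    ∃ A : Finset (ZMod n), ZeroThreeSumFree A ∧ (A.card : ℚ) = vPM n := by
  classical
  unfold vPM
  split_ifs with H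
  · obtain ⟨hp, hpn, hp3⟩ := Nat.find_spec H
    set p := Nat.find H with hpdef
    obtain ⟨A, hA, hc⟩ := construct (n := n) (m := p) (lo := (p + 1) / 3) (l := (p + 1) / 3)
      hn hp.pos hpn (by omega) (by omega) (by omega) (by omega) (by omega)
    refine ⟨A, hA, ?_⟩
    rw [hc]
    obtain ⟨e, he⟩ := hpn
    have hnd : n / p = e := by rw [he]; exact Nat.mul_div_cancel_left e hp.pos
    rw [hnd]
    have h3 : (((p + 1) / 3 : ℕ) : ℚ) = ((p : ℚ) + 1) / 3 := by
      rw [Nat.cast_div (by omega) (by norm_num)]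
      push_cast; ring
    have hpQ : (0 : ℚ) < p := by exact_mod_cast hp.pos
    push_cast
    rw [h3, he]
    push_cast
    field_simp
  · have hn3 : n % 3 ≠ 2 := by
      intro h
      obtain ⟨q, hq, hqd, hq3⟩ := exists_prime_mod n h
      exact H ⟨q, hq, hqd, hq3⟩
    have hfl : ⌊((n : ℚ) - 1) / 3⌋ = (((n - 1) / 3 : ℕ) : ℤ) := by
      have e : ((n : ℚ) - 1) / 3 = (((n - 1 : ℕ) : ℤ) : ℚ) / ((3 : ℕ) : ℚ) := by
        push_cast [Nat.cast_sub hn]; ring
      rw [e, Rat.floor_intCast_div_natCast]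
      norm_num
    rw [hfl]
    rcases Nat.eq_zero_or_pos ((n - 1) / 3) with h0 | hpos
    · refine ⟨∅, ?_, ?_⟩
      · intro a ha; simp at ha
      · rw [h0]; simp
    · obtain ⟨A, hA, hc⟩ := construct (n := n) (m := n) (lo := n / 3 + 1) (l := (n - 1) / 3)
        hn hn dvd_rfl hpos (by omega) (by omega) (by omega) (by omega)
      refine ⟨A, hA, ?_⟩
      rw [hc, Nat.div_self hn, mul_one]
      push_cast; rfl

/-- **Main result** (MP_25b479_co, Q1). For every positive integer `n`,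
`τ_±(ℤ_n,3) = v(n)`. -/
theorem result (n : ℕ) (hn : 0 < n) : (tauPM n : ℚ) = vPM n := by
  have : NeZero n := ⟨hn.ne'⟩
  obtain ⟨A, hA, hc⟩ := exists_set hn
  have hg : IsGreatest {k : ℕ | ∃ A : Finset (ZMod n), ZeroThreeSumFree A ∧ A.card = k} A.card := by
    refine ⟨⟨A, hA, rfl⟩, ?_⟩
    rintro k ⟨B, hB, rfl⟩
    have := card_le hn B hB
    rw [← hc] at this
    exact_mod_cast this
  rw [← hc]
  unfold tauPM
  rw [hg.csSup_eq]

end Pool.Agent.Results.MP_25b479_co.SignedZeroThree
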